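import Pool.Agent.helper82.SC.SpecC

/-!
# Project sp, module RG: rigidity by the maximum principle
-/

namespace Pool.Agent.helper82.SC

open Filter Topology Complex

theorem RG_convex : Convex ℝ Qs := by
  have h : Qs = {w : ℂ | 0 ≤ w.re} ∩ ({w : ℂ | w.re ≤ 1} ∩ ({w : ℂ | 0 ≤ w.im} ∩ {w : ℂ | w.im ≤ 1})) := by
    ext w; rfl
  rw [h]
  exact (convex_halfSpace_re_ge 0).inter ((convex_halfSpace_re_le 1).inter
    ((convex_halfSpace_im_ge 0).inter (convex_halfSpace_im_le 1)))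

theorem RG_closed : IsClosed Qs := by
  have h : Qs = {w : ℂ | 0 ≤ w.re} ∩ ({w : ℂ | w.re ≤ 1} ∩ ({w : ℂ | 0 ≤ w.im} ∩ {w : ℂ | w.im ≤ 1})) := by
    ext w; rfl
  rw [h]
  exact (isClosed_le continuous_const continuous_re).inter
    ((isClosed_le continuous_re continuous_const).inter
    ((isClosed_le continuous_const continuous_im).inter (isClosed_le continuous_im continuous_const)))

theorem RG_center : (⟨1 / 2, 1 / 2⟩ : ℂ) ∈ interior Qs := by
  have ho : IsOpen ({w : ℂ | 0 < w.re} ∩ ({w : ℂ | w.re < 1} ∩ ({w : ℂ | 0 < w.im} ∩ {w : ℂ | w.im < 1}))) :=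
    (isOpen_lt continuous_const continuous_re).inter
    ((isOpen_lt continuous_re continuous_const).inter
    ((isOpen_lt continuous_const continuous_im).inter (isOpen_lt continuous_im continuous_const)))
  refine mem_interior.2 ⟨_, ?_, ho, ?_⟩
  · rintro w ⟨h1, h2, h3, h4⟩
    exact ⟨le_of_lt h1, le_of_lt h2, le_of_lt h3, le_of_lt h4⟩
  · refine ⟨?_, ?_, ?_, ?_⟩ <;> simp <;> norm_num

theorem RG_cl : closure (interior Qs) = Qs := by
  rw [RG_convex.closure_interior_eq_closure_of_nonempty_interior ⟨_, RG_center⟩, RG_closed.closure_eq]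

theorem RG_bdd : Bornology.IsBounded (interior Qs) := by
  rw [isBounded_iff_forall_norm_le]
  refine ⟨2, fun w hw => ?_⟩
  obtain ⟨h1, h2, h3, h4⟩ := interior_subset hw
  have := Complex.norm_le_abs_re_add_abs_im w
  rw [abs_of_nonneg h1, abs_of_nonneg h3] at this
  linarith

theorem RG : RG_stmt := by
  intro d hdc hdd hb hd0
  -- the functions exp (t d^3)
  have hdiff : ∀ t : ℂ, DiffContOnCl ℂ (fun w => exp (t * (d w) ^ 3)) (interior Qs) := by
    intro t
    refine ⟨?_, ?_⟩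
    · exact ((hdd.pow 3).const_mul t).cexp
    · rw [RG_cl]
      exact ((hdc.pow 3).const_smul t).cexp
  have hfr : frontier (interior Qs) ⊆ frontier Qs := frontier_interior_subset
  have hle : ∀ t : ℝ, ∀ w ∈ Qs, ‖exp ((t : ℂ) * (d w) ^ 3)‖ ≤ 1 := by
    intro t w hw
    refine norm_le_of_forall_mem_frontier_norm_le RG_bdd (hdiff t) (C := 1) ?_ (z := w) (by rwa [RG_cl])
    intro z hz
    rw [Complex.norm_exp, Complex.re_ofReal_mul, hb z (hfr hz), mul_zero, Real.exp_zero]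
  have hre : ∀ w ∈ Qs, ((d w) ^ 3).re = 0 := by
    intro w hw
    have h1 := hle 1 w hw
    have h2 := hle (-1) w hw
    rw [Complex.norm_exp, Complex.re_ofReal_mul, Real.exp_le_one_iff] at h1 h2
    linarith
  have hone : ∀ t : ℝ, ∀ w ∈ Qs, exp ((t : ℂ) * (d w) ^ 3) = 1 := by
    intro t w hw
    have hn : ∀ w ∈ Qs, ‖exp ((t : ℂ) * (d w) ^ 3)‖ = 1 := by
      intro w hw
      rw [Complex.norm_exp, Complex.re_ofReal_mul, hre w hw, mul_zero, Real.exp_zero]
    have hmax : IsMaxOn (norm ∘ fun w => exp ((t : ℂ) * (d w) ^ 3)) (interior Qs) ⟨1 / 2, 1 / 2⟩ := by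
      intro z hz
      show ‖exp ((t : ℂ) * (d z) ^ 3)‖ ≤ ‖exp ((t : ℂ) * (d ⟨1 / 2, 1 / 2⟩) ^ 3)‖
      rw [hn z (interior_subset hz), hn _ (interior_subset RG_center)]
    have heq := eqOn_closure_of_isPreconnected_of_isMaxOn_norm RG_convex.interior.isPreconnected
      isOpen_interior (hdiff t) RG_center hmax
    rw [RG_cl] at heq
    have h0 : (0 : ℂ) ∈ Qs := ⟨le_rfl, zero_le_one, le_rfl, zero_le_one⟩
    have e1 : exp ((t : ℂ) * (d w) ^ 3) = exp ((t : ℂ) * (d ⟨1 / 2, 1 / 2⟩) ^ 3) := heq hw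
    have e2 : exp ((t : ℂ) * (d 0) ^ 3) = exp ((t : ℂ) * (d ⟨1 / 2, 1 / 2⟩) ^ 3) := heq h0
    rw [e1, ← e2, hd0]
    simp
  intro w hw
  by_contra hne
  have hz : (d w) ^ 3 ≠ 0 := pow_ne_zero 3 hne
  have hzn : 0 < ‖(d w) ^ 3‖ := norm_pos_iff.2 hz
  have h1 := hone (1 / ‖(d w) ^ 3‖) w hw
  rw [Complex.exp_eq_one_iff] at h1
  obtain ⟨n, hn⟩ := h1
  have h2 : ‖((1 / ‖(d w) ^ 3‖ : ℝ) : ℂ) * (d w) ^ 3‖ = 1 := by
    rw [norm_mul, Complex.norm_real, Real.norm_of_nonneg (by positivity)]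
    field_simp
  rw [hn] at h2
  rw [norm_mul, norm_mul, norm_mul, Complex.norm_intCast, Complex.norm_I, mul_one, Complex.norm_real,
    Real.norm_of_nonneg Real.pi_pos.le, Complex.norm_ofNat] at h2
  have hpi := Real.pi_gt_three
  rcases eq_or_ne n 0 with rfl | hn0
  · simp at h2
  · have h3 : (1 : ℝ) ≤ |(n : ℝ)| := by
      have := Int.one_le_abs hn0
      exact_mod_cast this
    nlinarith

end Pool.Agent.helper82.SC
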