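import Pool.Agent.helper82.SC.SpecA

/-!
# Project sp, module ZDB: the source joined to the corner `j + 1` gives a black path
-/

namespace Pool.Agent.helper82.SC

open Relation

/-- step between two sites of a common face of the domain, the second one of colour `k` -/
def ZDB_R (D : Dom) (c : V → ZMod 2) (k : ZMod 2) (a b : V) : Prop :=
  c b = k ∧ ∃ f d e, D.FU f ∧ S f d = a ∧ S f e = b

/-- end points of a dart -/
def ZDB_E (x : Dart) (u : V) : Prop := u = S x.1 x.2 ∨ u = S x.1 (x.2 + 1)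

theorem ZDB_E_star {x : Dart} {u : V} (h : ZDB_E x u) : ZDB_E (star x) u := by
  unfold ZDB_E star at *
  simp only
  rw [S_tw, S_tw']
  exact h.symm

theorem ZDB_face {D : Dom} {x : Dart} (hx : D.FU x.1) {u v : V} (hu : ZDB_E x u) (hv : ZDB_E x v)
    {c : V → ZMod 2} {k : ZMod 2} (hk : c v = k) : ZDB_R D c k u v := by
  refine ⟨hk, x.1, ?_⟩
  rcases hu with rfl | rfl <;> rcases hv with rfl | rfl
  · exact ⟨_, _, hx, rfl, rfl⟩
  · exact ⟨_, _, hx, rfl, rfl⟩
  · exact ⟨_, _, hx, rfl, rfl⟩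
  · exact ⟨_, _, hx, rfl, rfl⟩

theorem ZDB_two (a b k : ZMod 2) (h : a + b = 1) : a = k ∨ b = k := by
  revert a b k; decide

/-- a wall dart of the domain has an end of colour `k` -/
theorem ZDB_end {D : Dom} {ψ : Dart → ZMod 2} {c : V → ZMod 2} (k : ZMod 2)
    (hc : ∀ x : Dart, D.FU x.1 → ψ x = c (S x.1 x.2) + c (S x.1 (x.2 + 1)))
    {x : Dart} (hx : ψ x = 1) (hF : D.FU x.1) : ∃ u, ZDB_E x u ∧ c u = k := by
  have h := hc x hF
  rw [hx] at h
  rcases ZDB_two _ _ k h.symm with h1 | h1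
  · exact ⟨_, Or.inl rfl, h1⟩
  · exact ⟨_, Or.inr rfl, h1⟩

theorem ZDB_walk {D : Dom} {ψ : Dart → ZMod 2} {c : V → ZMod 2} (k : ZMod 2)
    (hc : ∀ x : Dart, D.FU x.1 → ψ x = c (S x.1 x.2) + c (S x.1 (x.2 + 1)))
    {x y : Dart} (hx : D.FU x.1) (h : D.Cn ψ x y) {u : V} (hu : ZDB_E x u) :
    ∀ v, ZDB_E y v → c v = k → ReflTransGen (ZDB_R D c k) u v := by
  induction h with
  | refl =>
    intro v hv hk
    exact ReflTransGen.single (ZDB_face hx hu hv hk)
  | tail hxy hyz ih =>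
    rename_i y z
    obtain ⟨hy, hz, h⟩ := hyz
    intro v hv hk
    rcases h with ⟨hF, he, hne⟩ | ⟨hF, he⟩
    · obtain ⟨w, hw, hwk⟩ := ZDB_end k hc hy hF
      refine (ih w hw hwk).tail ⟨hk, y.1, ?_⟩
      rcases hw with rfl | rfl <;> rcases hv with rfl | rfl
      · exact ⟨_, z.2, hF, rfl, by rw [he]⟩
      · exact ⟨_, z.2 + 1, hF, rfl, by rw [he]⟩
      · exact ⟨_, z.2, hF, rfl, by rw [he]⟩
      · exact ⟨_, z.2 + 1, hF, rfl, by rw [he]⟩
    · subst he
      have hv' : ZDB_E y v := by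
        have := ZDB_E_star hv
        rwa [star_star] at this
      rcases hF with hF | hF
      · obtain ⟨w, hw, hwk⟩ := ZDB_end k hc hy hF
        exact (ih w hw hwk).tail (ZDB_face hF hw hv' hk)
      · obtain ⟨w, hw, hwk⟩ := ZDB_end k hc hz hF
        have hw' : ZDB_E y w := by
          have := ZDB_E_star hw
          rwa [star_star] at this
        exact (ih w hw' hwk).tail (ZDB_face hF hw hv hk)

theorem ZDB_adj {f : F} {d e : Fin 3} {a b : V} (h1 : S f d = a) (h2 : S f e = b) (h : a ≠ b) :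
    TAdj a b := by
  subst h1 h2
  exact TAdj_S f d e (fun h' => h (by rw [h']))

/-- last exit and first entrance -/
theorem ZDB_path {D : Dom} {c : V → ZMod 2} {k : ZMod 2} {j t : Fin 3} {part : V → ZMod 2}
    {W : Set V} (hjt : j ≠ t) (hWU : W ⊆ (D.U : Set V))
    (hW : ∀ w, c w = k → w ∈ W ∨ (w ∉ D.U ∧ D.sec w = j ∧ part w = k) ∨ (w ∉ D.U ∧ D.sec w = t))
    (hAB : ∀ f d e, D.FU f → S f d ∉ D.U → D.sec (S f d) = j → part (S f d) = k → S f e ∉ D.U →
      D.sec (S f e) = t → False)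
    {u v : V} (h : ReflTransGen (ZDB_R D c k) u v) (hu : u ∉ D.U ∧ D.sec u = j ∧ part u = k)
    (hv : v ∉ D.U ∧ D.sec v = t) :
    ∃ u' w' : V, Con W u' w' ∧ (∃ v, v ∉ D.U ∧ TAdj u' v ∧ D.sec v = j ∧ part v = k) ∧
      ∃ v, v ∉ D.U ∧ TAdj w' v ∧ D.sec v = t := by
  have key : (∃ u' w' : V, Con W u' w' ∧ (∃ v, v ∉ D.U ∧ TAdj u' v ∧ D.sec v = j ∧ part v = k) ∧
      ∃ v, v ∉ D.U ∧ TAdj w' v ∧ D.sec v = t) ∨ (v ∉ D.U ∧ D.sec v = j ∧ part v = k) ∨
      (v ∈ W ∧ ∃ u', Con W u' v ∧ ∃ v, v ∉ D.U ∧ TAdj u' v ∧ D.sec v = j ∧ part v = k) := by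
    clear hv
    induction h with
    | refl => exact Or.inr (Or.inl hu)
    | tail hab hbc ih =>
      rename_i b w
      obtain ⟨hcw, f, d, e, hF, hfd, hfe⟩ := hbc
      by_cases hbw : b = w
      · subst hbw; exact ih
      rcases ih with ih | ih | ih
      · exact Or.inl ih
      · rcases hW w hcw with h1 | h1 | h1
        · right; right
          refine ⟨h1, w, ⟨h1, ReflTransGen.refl⟩, b, ih.1, (ZDB_adj hfd hfe hbw).symm, ih.2⟩
        · exact Or.inr (Or.inl h1)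
        · exfalso
          subst hfd hfe
          exact hAB f d e hF ih.1 ih.2.1 ih.2.2 h1.1 h1.2
      · obtain ⟨hb, u', hu', hv'⟩ := ih
        rcases hW w hcw with h1 | h1 | h1
        · right; right
          exact ⟨h1, u', ⟨hu'.1, hu'.2.tail ⟨ZDB_adj hfd hfe hbw, h1⟩⟩, hv'⟩
        · exact Or.inr (Or.inl h1)
        · left
          exact ⟨u', b, hu', hv', w, h1.1, ZDB_adj hfd hfe hbw, h1.2⟩
  rcases key with h1 | h1 | h1
  · exact h1
  · exact absurd (h1.2.1.symm.trans hv.2) hjt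
  · exact absurd (hWU h1.1) hv.1

theorem ZDB_fin3 : ∀ d e : Fin 3, d ≠ e → (e = d + 1) ∨ (d = e + 1) := by decide

theorem ZDB_third : ∀ g d : Fin 3, g ≠ d → g ≠ d + 1 → g = d + 2 := by decide

theorem ZDB_ej : ∀ j : Fin 3, j + 2 ≠ j ∧ j + 2 ≠ j + 1 := by decide

/-- two exterior sites of a face of the domain in different sectors are at a corner -/
theorem ZDB_corner {D : Dom} {f : F} {d e : Fin 3} (hF : D.FU f) (hd : S f d ∉ D.U)
    (he : S f e ∉ D.U) (hs : D.sec (S f d) ≠ D.sec (S f e)) :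
    ∃ m, (S f d = S (D.a m).1 (D.a m).2 ∧ S f e = S (D.a m).1 ((D.a m).2 + 1)) ∨
      (S f e = S (D.a m).1 (D.a m).2 ∧ S f d = S (D.a m).1 ((D.a m).2 + 1)) := by
  have hde : d ≠ e := fun h => hs (by rw [h])
  obtain ⟨g, hg⟩ := hF
  rcases ZDB_fin3 d e hde with h | h
  · subst h
    have h3 : g = d + 2 := by
      have h1 : g ≠ d := fun h => hd (h ▸ hg)
      have h2 : g ≠ d + 1 := fun h => he (h ▸ hg)
      exact ZDB_third g d h1 h2
    subst h3
    obtain ⟨m, hm⟩ := D.only f d hg hd he hs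
    refine ⟨m, Or.inl ?_⟩
    rw [← hm]
    exact ⟨rfl, rfl⟩
  · subst h
    have h3 : g = e + 2 := by
      have h1 : g ≠ e := fun h => he (h ▸ hg)
      have h2 : g ≠ e + 1 := fun h => hd (h ▸ hg)
      exact ZDB_third g e h1 h2
    subst h3
    obtain ⟨m, hm⟩ := D.only f e hg he hd (fun h => hs h.symm)
    refine ⟨m, Or.inr ?_⟩
    rw [← hm]
    exact ⟨rfl, rfl⟩

/-- the source at a boundary dart with wall value `1` -/
theorem ZDB_zp {ψ : Dart → ZMod 2} {z : Dart} (h : ψ z = 1) : zp ψ z = z := by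
  unfold zp
  rw [if_pos h]

theorem ZDB_prob {D : Dom} {β : V → ZMod 2} {p : Dart} {q : Fin 3}
    (hbij : Set.BijOn (psix D β) {s | s ⊆ D.U} (D.Conf p)) {X : Finset V → Prop}
    (hX : ∀ s ⊆ D.U, D.Jn (psix D β s) p q → X s) : D.P q p ≤ prob D.U X := by
  classical
  have hfin : {s : Finset V | s ⊆ D.U ∧ X s}.Finite :=
    (D.U.powerset.finite_toSet).subset (fun s hs => by
      simpa using hs.1)
  unfold Dom.P prob
  gcongr
  have hsub : {ψ | ψ ∈ D.Conf p ∧ D.Jn ψ p q} ⊆ psix D β '' {s : Finset V | s ⊆ D.U ∧ X s} := by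
    rintro ψ ⟨h1, h2⟩
    obtain ⟨s, hs, rfl⟩ := hbij.surjOn h1
    exact ⟨s, ⟨hs, hX s hs h2⟩, rfl⟩
  exact (Set.ncard_le_ncard hsub (hfin.image _)).trans (Set.ncard_image_le hfin)

theorem ZDB (h1 : CA_stmt) (h2 : B4_stmt) : ZDB_stmt := by
  intro D j p part hp
  have hB := h2 D j p part hp
  have hbij := h1 D (beta4 D j part) p hB
  obtain ⟨hF, hp1, hp2, hs1, hs2, hall, hq1, hq2, hq3⟩ := hp
  refine ZDB_prob hbij ?_
  intro s hs hJ
  set ψ := psix D (beta4 D j part) s with hψ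
  set c := cx D (beta4 D j part) s with hcdef
  have hc : ∀ x : Dart, D.FU x.1 → ψ x = c (S x.1 x.2) + c (S x.1 (x.2 + 1)) := by
    intro x hx
    rw [hψ, psix, if_pos hx]
  have hcout : ∀ w, w ∉ D.U → c w = beta4 D j part w := by
    intro w hw
    rw [hcdef, cx, if_neg hw]
  have hpart2 : part (S p.1 (p.2 + 1)) = 0 := by
    have := hall p hF hp1 hp2 hs1 hs2
    rw [if_pos rfl, hq1] at this
    have h0 : ∀ a : ZMod 2, 1 + a = 1 → a = 0 := by decide
    exact h0 _ this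
  have hc1 : c (S p.1 p.2) = 1 := by
    rw [hcout _ hp1, beta4, if_pos hs1, hq1]
  have hc2 : c (S p.1 (p.2 + 1)) = 0 := by
    rw [hcout _ hp2, beta4, if_pos hs2, hpart2]
  have hψp : ψ p = 1 := by
    rw [hc p hF, hc1, hc2, add_zero]
  unfold Dom.Jn at hJ
  rw [ZDB_zp hψp] at hJ
  -- the end points
  have ej1 : j + 2 ≠ j := (ZDB_ej j).1
  have ej2 : j + 2 ≠ j + 1 := (ZDB_ej j).2
  have hsv : D.sec (S (D.a (j + 1)).1 (D.a (j + 1)).2) = j + 2 := by
    rw [D.sec_first, add_assoc]; rfl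
  have hcv : c (S (D.a (j + 1)).1 (D.a (j + 1)).2) = 0 := by
    rw [hcout _ (D.first _), beta4, if_neg (by rw [hsv]; exact ej1), if_neg (by rw [hsv]; exact ej2)]
  have hwalk := ZDB_walk (c := c) 0 hc hF hJ (u := S p.1 (p.2 + 1)) (Or.inr rfl)
    (S (D.a (j + 1)).1 (D.a (j + 1)).2) (ZDB_E_star (Or.inl rfl)) hcv
  have h10 : (1 : ZMod 2) ≠ 0 := by decide
  refine ZDB_path (W := (D.U : Set V) \ (s : Set V)) (j := j) (t := j + 2) ej1.symm
    Set.diff_subset ?_ ?_ hwalk ⟨hp2, hs2, hpart2⟩ ⟨D.first _, hsv⟩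
  · intro w hw
    by_cases hwU : w ∈ D.U
    · left
      refine ⟨hwU, fun hws => ?_⟩
      rw [hcdef, cx, if_pos hwU, if_pos (by exact_mod_cast hws)] at hw
      exact h10 hw
    · right
      rw [hcout w hwU, beta4] at hw
      by_cases h3 : D.sec w = j
      · rw [if_pos h3] at hw
        exact Or.inl ⟨hwU, h3, hw⟩
      · rw [if_neg h3] at hw
        by_cases h4 : D.sec w = j + 1
        · rw [if_pos h4] at hw
          exact absurd hw h10
        · right
          refine ⟨hwU, ?_⟩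
          have : ∀ a b : Fin 3, a ≠ b → a ≠ b + 1 → a = b + 2 := by decide
          exact this _ _ h3 h4
  · intro f d e hFf hd hdj hdk he het
    have hne : D.sec (S f d) ≠ D.sec (S f e) := by
      rw [hdj, het]; exact ej1.symm
    obtain ⟨m, ⟨e1, e2⟩ | ⟨e1, e2⟩⟩ := ZDB_corner hFf hd he hne
    · rw [e1, D.sec_first] at hdj
      rw [e2, D.sec_second] at het
      have : ∀ m j : Fin 3, m + 1 = j → m + 2 = j + 2 → False := by decide
      exact this m j hdj het
    · rw [e2, D.sec_second] at hdj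
      rw [e1, D.sec_first] at het
      have hm : ∀ m j : Fin 3, m + 2 = j → m + 1 = j + 2 → m = j + 1 := by decide
      have hm' := hm m j hdj het
      subst hm'
      rw [e2, hq2] at hdk
      exact h10 hdk

end Pool.Agent.helper82.SC
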